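import Mathlib
import Pool.Agent.W761.CB.Stms

/-!
# The window on the cube
-/

set_option autoImplicit false

open MeasureTheory
open scoped ENNReal

namespace Pool.Agent.W790.CB

open Pool.Agent.W761.CB

noncomputable section

/-- the interval -/
abbrev iv : Set ℝ := Set.Ioc (-(1 / 2)) (1 / 2)

/-- one factor of the square of the window -/
def g2 (t : ℝ) : ℝ := 15 / 8 * (1 - 4 * t ^ 2) ^ 2

theorem sq15 : √(15 / 8 : ℝ) ^ 2 = 15 / 8 := Real.sq_sqrt (by norm_num)

theorem iv_int (f : ℝ → ℝ) : ∫ t in iv, f t = ∫ t in (-(1 / 2 : ℝ))..(1 / 2), f t :=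
  (intervalIntegral.integral_of_le (by norm_num)).symm

theorem iv0 : ∫ t in iv, g2 t = 1 := by
  rw [iv_int]
  have : ∀ t : ℝ, g2 t = 15 / 8 - 15 * t ^ 2 + 30 * t ^ 4 := fun t => by unfold g2; ring
  simp only [this]
  rw [intervalIntegral.integral_add, intervalIntegral.integral_sub]
  · simp only [intervalIntegral.integral_const_mul, integral_pow, intervalIntegral.integral_const,
      smul_eq_mul]
    norm_num
  all_goals exact Continuous.intervalIntegrable (by fun_prop) _ _

theorem iv1 : ∫ t in iv, g2 t * t = 0 := by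
  rw [iv_int]
  have : ∀ t : ℝ, g2 t * t = 15 / 8 * t ^ 1 - 15 * t ^ 3 + 30 * t ^ 5 := fun t => by unfold g2; ring
  simp only [this]
  rw [intervalIntegral.integral_add, intervalIntegral.integral_sub]
  · simp only [intervalIntegral.integral_const_mul, integral_pow]
    norm_num
  all_goals exact Continuous.intervalIntegrable (by fun_prop) _ _

theorem iv2 : ∫ t in iv, g2 t * t ^ 2 = 1 / 28 := by
  rw [iv_int]
  have : ∀ t : ℝ, g2 t * t ^ 2 = 15 / 8 * t ^ 2 - 15 * t ^ 4 + 30 * t ^ 6 :=
    fun t => by unfold g2; ring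
  simp only [this]
  rw [intervalIntegral.integral_add, intervalIntegral.integral_sub]
  · simp only [intervalIntegral.integral_const_mul, integral_pow]
    norm_num
  all_goals exact Continuous.intervalIntegrable (by fun_prop) _ _

theorem iv3 : ∫ t in iv, (120 * t ^ 2 : ℝ) = 10 := by
  rw [iv_int]
  simp only [intervalIntegral.integral_const_mul, integral_pow]
  norm_num

section
variable {d : Type} [Fintype d]

theorem restr : (volume : Measure (d → ℝ)).restrict (bx d) =
    Measure.pi fun _ : d => (volume : Measure ℝ).restrict iv := by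
  rw [volume_pi]
  exact Measure.restrict_pi_pi _ _

theorem bx_meas : MeasurableSet (bx d) :=
  MeasurableSet.univ_pi fun _ => measurableSet_Ioc

theorem bx_ae : bx d =ᵐ[volume] Set.Icc (fun _ : d => (-(1 / 2) : ℝ)) (fun _ => 1 / 2) := by
  rw [volume_pi]
  exact Measure.univ_pi_Ioc_ae_eq_Icc

theorem cont_int {f : (d → ℝ) → ℝ} (hf : Continuous f) :
    Integrable f ((volume : Measure (d → ℝ)).restrict (bx d)) := by
  have h : IntegrableOn f (Set.Icc (fun _ : d => (-(1 / 2) : ℝ)) (fun _ => 1 / 2)) volume :=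
    hf.continuousOn.integrableOn_compact isCompact_Icc
  exact h.congr_set_ae bx_ae

/-- integrals of products -/
theorem prod_int (f : d → ℝ → ℝ) :
    ∫ s in bx d, ∏ i, f i (s i) = ∏ i, ∫ t in iv, f i t := by
  rw [restr]
  exact integral_fintype_prod_eq_prod f

theorem lint_of {f : (d → ℝ) → ℝ} (hf : Continuous f) (h0 : ∀ s, 0 ≤ f s) {c : ℝ}
    (h : ∫ s in bx d, f s = c) : ∫⁻ s in bx d, ENNReal.ofReal (f s) = ENNReal.ofReal c := by
  rw [← h, ofReal_integral_eq_lintegral_ofReal (cont_int hf) (Filter.Eventually.of_forall h0)]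

theorem win_cont : Continuous (win (d := d)) := by
  unfold win
  fun_prop

theorem win_sq (s : d → ℝ) : win s ^ 2 = ∏ j, g2 (s j) := by
  unfold win g2
  rw [← Finset.prod_pow]
  refine Finset.prod_congr rfl fun j _ => ?_
  rw [mul_pow, sq15]

theorem w1 : ∫⁻ s in bx d, ENNReal.ofReal (win s ^ 2) = 1 := by
  have h : ∫ s in bx d, win s ^ 2 = 1 := by
    simp only [win_sq]
    rw [prod_int fun _ => g2]
    simp [iv0]
  rw [lint_of (by have := win_cont (d := d); fun_prop) (fun s => sq_nonneg _) h]
  simp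

variable [DecidableEq d]

theorem dwin_cont (j : d) : Continuous (dwin j) := by
  unfold dwin
  fun_prop

theorem w4 (j : d) : ∫⁻ s in bx d, ENNReal.ofReal (dwin j s ^ 2) = 10 := by
  have h : ∫ s in bx d, dwin j s ^ 2 = 10 := by
    have e : ∀ s : d → ℝ, dwin j s ^ 2 =
        ∏ i, (fun i t => if i = j then 120 * t ^ 2 else g2 t) i (s i) := by
      intro s
      rw [← Finset.mul_prod_erase Finset.univ _ (Finset.mem_univ j)]
      simp only [if_true]
      unfold dwin
      rw [mul_pow, mul_pow, sq15, ← Finset.prod_pow]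
      congr 1
      · ring
      · refine Finset.prod_congr rfl fun i hi => ?_
        rw [if_neg (Finset.ne_of_mem_erase hi), mul_pow, sq15, g2]
    simp only [e]
    rw [prod_int (fun i t => if i = j then 120 * t ^ 2 else g2 t)]
    rw [← Finset.mul_prod_erase Finset.univ _ (Finset.mem_univ j)]
    have h1 : ∀ i ∈ Finset.univ.erase j,
        (∫ t in iv, (if i = j then 120 * t ^ 2 else g2 t)) = 1 := by
      intro i hi
      simp only [if_neg (Finset.ne_of_mem_erase hi)]
      exact iv0
    rw [Finset.prod_congr rfl h1]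
    simp only [if_true]
    rw [iv3]
    simp
  rw [lint_of (by have := dwin_cont j; fun_prop) (fun s => sq_nonneg _) h]
  simp

theorem w5 (j : d) (s : d → ℝ) :
    HasDerivAt (fun t : ℝ => win (Function.update s j t)) (dwin j s) (s j) := by
  have e : (fun t : ℝ => win (Function.update s j t)) = fun t =>
      (√(15 / 8) * (1 - 4 * t ^ 2)) *
        ∏ j' ∈ Finset.univ.erase j, (√(15 / 8) * (1 - 4 * s j' ^ 2)) := by
    funext t
    unfold win
    rw [← Finset.mul_prod_erase Finset.univ _ (Finset.mem_univ j)]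
    congr 1
    · rw [Function.update_self]
    · refine Finset.prod_congr rfl fun i hi => ?_
      rw [Function.update_of_ne (Finset.ne_of_mem_erase hi)]
  rw [e]
  unfold dwin
  apply HasDerivAt.mul_const
  have h : HasDerivAt (fun t : ℝ => √(15 / 8) * (1 - 4 * t ^ 2))
      (√(15 / 8) * (0 - 4 * (2 * s j ^ (2 - 1)))) (s j) :=
    (((hasDerivAt_const (s j) (1 : ℝ)).sub ((hasDerivAt_pow 2 (s j)).const_mul 4))).const_mul _
  refine h.congr_deriv ?_
  norm_num
  ring

omit [DecidableEq d] in
theorem w6 (j : d) (s : d → ℝ) (h : s j = 1 / 2 ∨ s j = -(1 / 2)) : win s = 0 := by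
  unfold win
  apply Finset.prod_eq_zero (Finset.mem_univ j)
  rcases h with h | h <;> · rw [h]; norm_num

theorem s15 : √(15 / 8 : ℝ) ≤ 2 := by
  rw [Real.sqrt_le_left (by norm_num)]
  norm_num

theorem fac_le {t : ℝ} (h : |t| ≤ 1 / 2) : |√(15 / 8 : ℝ) * (1 - 4 * t ^ 2)| ≤ 2 := by
  have h1 : t ^ 2 ≤ 1 / 4 := by
    rw [← sq_abs]
    nlinarith [abs_nonneg t]
  have h2 : 0 ≤ √(15 / 8 : ℝ) := Real.sqrt_nonneg _
  rw [abs_of_nonneg (mul_nonneg h2 (by linarith))]
  nlinarith [s15, sq_nonneg t]

omit [DecidableEq d] in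
theorem prod_le (S : Finset d) (s : d → ℝ) (h : ∀ j, |s j| ≤ 1 / 2) :
    |∏ j ∈ S, (√(15 / 8) * (1 - 4 * s j ^ 2))| ≤ 2 ^ Fintype.card d := by
  rw [Finset.abs_prod]
  calc ∏ j ∈ S, |√(15 / 8) * (1 - 4 * s j ^ 2)| ≤ ∏ _j ∈ S, (2 : ℝ) :=
        Finset.prod_le_prod (fun _ _ => abs_nonneg _) fun j _ => fac_le (h j)
    _ = 2 ^ S.card := by rw [Finset.prod_const]
    _ ≤ 2 ^ Fintype.card d := pow_le_pow_right₀ (by norm_num) (Finset.card_le_univ S)

theorem w7 (s : d → ℝ) (h : ∀ j, |s j| ≤ 1 / 2) :
    |win s| ≤ 2 ^ Fintype.card d ∧ ∀ j, |dwin j s| ≤ 8 * 2 ^ Fintype.card d := by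
  refine ⟨prod_le Finset.univ s h, fun j => ?_⟩
  unfold dwin
  rw [abs_mul]
  refine mul_le_mul ?_ (prod_le _ s h) (abs_nonneg _) (by norm_num)
  rw [abs_mul, abs_mul, abs_of_nonneg (Real.sqrt_nonneg _)]
  have h1 := h j
  have h2 : |(-8 : ℝ)| = 8 := by norm_num
  rw [h2]
  nlinarith [s15, Real.sqrt_nonneg (15 / 8 : ℝ), abs_nonneg (s j)]

/-- mixed moments -/
theorem mom (x y : d) : ∫ s in bx d, win s ^ 2 * (s x * s y) = if x = y then 1 / 28 else 0 := by
  have e : ∀ s : d → ℝ, win s ^ 2 * (s x * s y) =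
      ∏ i, (fun i t => g2 t * ((if i = x then t else 1) * (if i = y then t else 1))) i (s i) := by
    intro s
    simp only
    rw [win_sq, Finset.prod_mul_distrib, Finset.prod_mul_distrib, Finset.prod_ite_eq',
      Finset.prod_ite_eq']
    simp
  simp only [e]
  rw [prod_int (fun i t => g2 t * ((if i = x then t else 1) * (if i = y then t else 1)))]
  rw [← Finset.mul_prod_erase Finset.univ _ (Finset.mem_univ x)]
  by_cases hxy : x = y
  · subst hxy
    have h1 : ∀ i ∈ Finset.univ.erase x, (∫ t in iv,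
        g2 t * ((if i = x then t else 1) * (if i = x then t else 1))) = 1 := by
      intro i hi
      simp only [if_neg (Finset.ne_of_mem_erase hi), mul_one]
      exact iv0
    rw [Finset.prod_congr rfl h1]
    have : ∀ t : ℝ, g2 t * (t * t) = g2 t * t ^ 2 := fun t => by ring
    simp only [if_true, this, iv2]
    simp
  · simp only [if_true, hxy, if_false, mul_one, iv1, zero_mul]

end

section
variable {I : Type} [Fintype I] [DecidableEq I]

theorem w2 (a : I → ℝ) : ∫⁻ s in bx (I × Bool), ENNReal.ofReal (win s ^ 2) *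
      ‖∑ i, (a i : ℂ) * ((s (i, false) : ℂ) + Complex.I * (s (i, true) : ℂ))‖ₑ ^ 2 =
    ENNReal.ofReal ((∑ i, a i ^ 2) / 14) := by
  have e1 : ∀ s : I × Bool → ℝ, ENNReal.ofReal (win s ^ 2) *
      ‖∑ i, (a i : ℂ) * ((s (i, false) : ℂ) + Complex.I * (s (i, true) : ℂ))‖ₑ ^ 2 =
      ENNReal.ofReal (∑ b : Bool, ∑ i, ∑ k, a i * a k * (win s ^ 2 * (s (i, b) * s (k, b)))) := by
    intro s
    have h1 : ‖∑ i, (a i : ℂ) * ((s (i, false) : ℂ) + Complex.I * (s (i, true) : ℂ))‖ ^ 2 =
        (∑ i, a i * s (i, false)) ^ 2 + (∑ i, a i * s (i, true)) ^ 2 := by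
      have h2 : ∑ i, (a i : ℂ) * ((s (i, false) : ℂ) + Complex.I * (s (i, true) : ℂ)) =
          ((∑ i, a i * s (i, false) : ℝ) : ℂ) + ((∑ i, a i * s (i, true) : ℝ) : ℂ) * Complex.I := by
        push_cast
        rw [Finset.sum_mul, ← Finset.sum_add_distrib]
        refine Finset.sum_congr rfl fun i _ => ?_
        ring
      rw [h2, Complex.sq_norm, Complex.normSq_add_mul_I]
    have h3 : ‖∑ i, (a i : ℂ) * ((s (i, false) : ℂ) + Complex.I * (s (i, true) : ℂ))‖ₑ ^ 2 =
        ENNReal.ofReal ((∑ i, a i * s (i, false)) ^ 2 + (∑ i, a i * s (i, true)) ^ 2) := by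
      rw [← h1, ENNReal.ofReal_pow (norm_nonneg _), ofReal_norm]
    rw [h3, ← ENNReal.ofReal_mul (sq_nonneg _)]
    congr 1
    have h4 : ∀ b : Bool, ∑ i, ∑ k, a i * a k * (win s ^ 2 * (s (i, b) * s (k, b))) =
        win s ^ 2 * (∑ i, a i * s (i, b)) ^ 2 := by
      intro b
      rw [sq (∑ i, a i * s (i, b)), Finset.sum_mul_sum, Finset.mul_sum]
      refine Finset.sum_congr rfl fun i _ => ?_
      rw [Finset.mul_sum]
      refine Finset.sum_congr rfl fun k _ => ?_
      ring
    simp only [h4, Fintype.sum_bool]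
    ring
  simp only [e1]
  have hc := win_cont (d := I × Bool)
  apply lint_of
  · fun_prop
  · intro s
    have h4 : ∀ b : Bool, ∑ i, ∑ k, a i * a k * (win s ^ 2 * (s (i, b) * s (k, b))) =
        win s ^ 2 * (∑ i, a i * s (i, b)) ^ 2 := by
      intro b
      rw [sq (∑ i, a i * s (i, b)), Finset.sum_mul_sum, Finset.mul_sum]
      refine Finset.sum_congr rfl fun i _ => ?_
      rw [Finset.mul_sum]
      refine Finset.sum_congr rfl fun k _ => ?_
      ring
    simp only [h4]
    positivity
  · rw [integral_finsetSum _ fun b _ => cont_int (by fun_prop)]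
    have h5 : ∀ b : Bool, ∫ s in bx (I × Bool), ∑ i, ∑ k, a i * a k *
        (win s ^ 2 * (s (i, b) * s (k, b))) = (∑ i, a i ^ 2) / 28 := by
      intro b
      rw [integral_finsetSum _ fun i _ => cont_int (by fun_prop), Finset.sum_div]
      refine Finset.sum_congr rfl fun i _ => ?_
      rw [integral_finsetSum _ fun k _ => cont_int (by fun_prop)]
      have h6 : ∀ k, ∫ s in bx (I × Bool), a i * a k * (win s ^ 2 * (s (i, b) * s (k, b))) =
          if i = k then a i ^ 2 / 28 else 0 := by
        intro k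
        rw [integral_const_mul, mom]
        by_cases hik : i = k
        · subst hik
          simp only [if_true]
          ring
        · have : ¬ ((i, b) = (k, b)) := fun h => hik (Prod.ext_iff.1 h).1
          rw [if_neg this, if_neg hik, mul_zero]
      simp only [h6]
      simp
    simp only [h5, Fintype.sum_bool]
    ring

omit [Fintype I] [DecidableEq I] in
theorem rot_meas : Measurable (rot (I := I)) := by
  unfold rot
  refine measurable_pi_lambda _ fun j => ?_
  by_cases h : j.2 = true
  · simp only [h, if_true]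
    exact measurable_pi_apply _
  · simp only [h]
    exact (measurable_pi_apply _).neg

/-- the exchange of the two components -/
def sw (I : Type) : I × Bool ≃ I × Bool where
  toFun j := (j.1, !j.2)
  invFun j := (j.1, !j.2)
  left_inv j := by simp
  right_inv j := by simp

omit [DecidableEq I] in
theorem rot_mp : MeasurePreserving (rot (I := I)) volume volume := by
  have h1 := volume_measurePreserving_piCongrLeft (fun _ : I × Bool => ℝ) (sw I)
  have h2 : MeasurePreserving (fun (s : I × Bool → ℝ) (j : I × Bool) =>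
      (fun (j : I × Bool) (t : ℝ) => if j.2 = true then t else -t) j (s j)) volume volume := by
    refine volume_preserving_pi (f := fun (j : I × Bool) (t : ℝ) => if j.2 = true then t else -t)
      fun j => ?_
    by_cases h : j.2 = true
    · simp only [h, if_true]
      exact MeasurePreserving.id volume
    · simp only [h]
      exact Measure.measurePreserving_neg volume
  have h3 := h2.comp h1
  convert h3 using 1
  funext s j
  simp only [Function.comp]
  have h4 : (MeasurableEquiv.piCongrLeft (fun _ : I × Bool => ℝ) (sw I)) s j = s ((sw I).symm j) := by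
    have := Equiv.piCongrLeft_apply (fun _ : I × Bool => ℝ) (sw I) s j
    rw [MeasurableEquiv.coe_piCongrLeft, this]
    exact eq_rec_constant _ _
  rw [h4]
  rcases j with ⟨i, b⟩
  cases b <;> simp [rot, sw]

omit [DecidableEq I] in
theorem win_rot (s : I × Bool → ℝ) : win (rot s) = win s := by
  unfold win
  rw [← Equiv.prod_comp (sw I) (fun j => √(15 / 8) * (1 - 4 * s j ^ 2))]
  refine Finset.prod_congr rfl fun j _ => ?_
  rcases j with ⟨i, b⟩
  cases b <;> simp [rot, sw]

omit [DecidableEq I] in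
theorem w3 (Φ : (I × Bool → ℝ) → ℝ≥0∞) (hΦ : Measurable Φ) :
    ∫⁻ s in bx (I × Bool), ENNReal.ofReal (win s ^ 2) * Φ (rot s) =
      ∫⁻ s in bx (I × Bool), ENNReal.ofReal (win s ^ 2) * Φ s := by
  rw [setLIntegral_congr bx_ae, setLIntegral_congr bx_ae]
  set Q := Set.Icc (fun _ : I × Bool => (-(1 / 2) : ℝ)) (fun _ => 1 / 2) with hQ
  have hpre : rot ⁻¹' Q = Q := by
    ext s
    simp only [hQ, Set.mem_preimage, Set.mem_Icc, Pi.le_def]
    constructor
    · rintro ⟨h1, h2⟩
      refine ⟨fun j => ?_, fun j => ?_⟩ <;> rcases j with ⟨i, b⟩ <;> cases b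
      · have := h1 (i, true); simpa [rot] using this
      · have := h2 (i, false); simp [rot] at this; linarith
      · have := h2 (i, true); simpa [rot] using this
      · have := h1 (i, false); simp [rot] at this; linarith
    · rintro ⟨h1, h2⟩
      refine ⟨fun j => ?_, fun j => ?_⟩ <;> rcases j with ⟨i, b⟩ <;> cases b
      · have := h2 (i, true); simp [rot]; linarith
      · have := h1 (i, false); simp [rot]; linarith
      · have := h1 (i, true); simp [rot]; linarith
      · have := h2 (i, false); simp [rot]; linarith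
  have hm : Measurable fun s : I × Bool → ℝ => ENNReal.ofReal (win s ^ 2) * Φ s := by
    have := (win_cont (d := I × Bool)).measurable
    fun_prop
  have h := rot_mp.setLIntegral_comp_preimage (s := Q) measurableSet_Icc hm
  rw [hpre] at h
  rw [← h]
  refine lintegral_congr fun s => ?_
  rw [win_rot]

end

theorem proof_win : S_WIN := by
  intro I _ _
  have hcard : Fintype.card (I × Bool) = 2 * Fintype.card I := by
    rw [Fintype.card_prod, Fintype.card_bool, mul_comm]
  refine ⟨w1, w2, w3, w4, w5, w6, fun s hs => ?_⟩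
  rw [← hcard]
  exact w7 s hs

end

end Pool.Agent.W790.CB
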